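import Mathlib
import Pool.Agent.H.MP_1aba1b_co.Up
import Pool.Agent.H.MP_56a9b7_co.Up
import Pool.Agent.H.MP_56a9b7_co.Low

set_option autoImplicit false

namespace Pool.Agent.Results.MP_56a9b7_co.Cstar

open Finset Pool.Agent.H.MP_56a9b7_co

/-- the number of edges of colour `j` at `v` -/
noncomputable def dg {n : ℕ} (G : SimpleGraph (Fin n)) (f : Sym2 (Fin n) → ℕ) (v : Fin n)
    (j : ℕ) : ℕ := {w | G.Adj v w ∧ f s(v, w) = j}.ncard

/-- the number of edges of colour `j` with both endpoints in the closed neighbourhood of `v` -/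
noncomputable def ec {n : ℕ} (G : SimpleGraph (Fin n)) (f : Sym2 (Fin n) → ℕ) (v : Fin n)
    (j : ℕ) : ℕ := {e ∈ G.edgeSet | f e = j ∧ ∀ x ∈ e, x = v ∨ G.Adj v x}.ncard

/-- `(a₁, a₂, a₃)` is a 3-flip sequence -/
def Flip (a₁ a₂ a₃ : ℕ) : Prop :=
  0 < a₁ ∧ a₁ < a₂ ∧ a₂ < a₃ ∧
  ∃ (n : ℕ) (G : SimpleGraph (Fin n)) (f : Sym2 (Fin n) → ℕ), 0 < n ∧
    (∀ e ∈ G.edgeSet, f e ∈ Set.Icc 1 3) ∧
    ∀ v, dg G f v 1 = a₁ ∧ dg G f v 2 = a₂ ∧ dg G f v 3 = a₃ ∧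
      ec G f v 3 < ec G f v 2 ∧ ec G f v 2 < ec G f v 1

lemma dg_eq {n : ℕ} (G : SimpleGraph (Fin n)) (f : Sym2 (Fin n) → ℕ) (v : Fin n) (j : ℕ) :
    dg G f v j = ∑ w, ib (G.Adj v w ∧ f s(v, w) = j) := by
  classical
  have : ∀ w, ib (G.Adj v w ∧ f s(v, w) = j) = if G.Adj v w ∧ f s(v, w) = j then 1 else 0 :=
    fun w => by simp [ib]
  simp only [this]
  rw [← card_filter, ← Set.ncard_coe_finset, dg]
  simp

lemma ec_eq {n : ℕ} (G : SimpleGraph (Fin n)) (f : Sym2 (Fin n) → ℕ) (v : Fin n) (j : ℕ) :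
    2 * ec G f v j = ∑ x, ∑ y, ib (x = v ∨ G.Adj v x) * ib (y = v ∨ G.Adj v y) *
      ib (G.Adj x y ∧ f s(x, y) = j) := by
  classical
  rw [ec, Pool.Agent.H.MP_1aba1b_co.two_ncard]
  refine sum_congr rfl fun x _ => sum_congr rfl fun y _ => ?_
  simp only [Sym2.mem_iff, forall_eq_or_imp, forall_eq]
  by_cases h1 : x = v ∨ G.Adj v x <;> by_cases h2 : y = v ∨ G.Adj v y <;> simp [h1, h2, ib]

lemma lower {d E : ℕ → ℕ} (h : Uni d E) (h1 : 0 < d 1) (h2 : d 1 < d 2) (h3 : d 2 < d 3)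
    (h4 : E 3 < E 2) (h5 : E 2 < E 1) : Flip (d 1) (d 2) (d 3) := by
  obtain ⟨A, i1, i2, col, h0, sy, hk, hc⟩ := h
  let e := (Fintype.equivFin A).symm
  let G : SimpleGraph (Fin (Fintype.card A)) :=
    { Adj := fun x y => col (e x) (e y) ≠ 0
      symm := ⟨fun x y h => by rwa [sy]⟩
      loopless := ⟨fun x h => h (h0 _)⟩ }
  let f : Sym2 (Fin (Fintype.card A)) → ℕ :=
    Sym2.lift ⟨fun x y => col (e x) (e y), fun x y => sy _ _⟩
  have z : ∀ x y j, j ∈ Icc 1 3 → (G.Adj x y ∧ f s(x, y) = j ↔ col (e x) (e y) = j) := by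
    intro x y j hj
    have := (mem_Icc.1 hj).1
    simp only [G, f, Sym2.lift_mk]
    omega
  have k1 : ∀ v j, j ∈ Icc 1 3 → dg G f v j = d j := fun v j hj => by
    rw [dg_eq, ← (hc (e v) j hj).1]
    exact Fintype.sum_equiv e _ _ fun w => by rw [z _ _ _ hj]
  have k2 : ∀ v j, j ∈ Icc 1 3 → 2 * ec G f v j = E j := fun v j hj => by
    rw [ec_eq, ← (hc (e v) j hj).2]
    refine Fintype.sum_equiv e _ _ fun x => Fintype.sum_equiv e _ _ fun y => ?_
    simp only [z _ _ _ hj, e.apply_eq_iff_eq]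
    rfl
  refine ⟨h1, h2, h3, _, G, f, Fintype.card_pos, fun x hx => ?_, fun v =>
    ⟨k1 v 1 (by simp), k1 v 2 (by simp), k1 v 3 (by simp), ?_⟩⟩
  · induction x using Sym2.ind with
    | _ x y => exact ⟨Nat.one_le_iff_ne_zero.2 hx, hk _ _⟩
  · have := k2 v 1 (by simp)
    have := k2 v 2 (by simp)
    have := k2 v 3 (by simp)
    omega

lemma upper {a b c : ℕ} (h : Flip a b c) : 4 * (b + c) ≤ 8 * a + 5 * a ^ 2 := by
  classical
  obtain ⟨h0, -, -, n, G, f, hn, hf, h⟩ := h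
  have hf' : ∀ x y, G.Adj x y → f s(x, y) = 1 ∨ f s(x, y) = 2 ∨ f s(x, y) = 3 := fun x y h => by
    have := hf s(x, y) h
    rw [Set.mem_Icc] at this
    omega
  let s : ℕ → Fin n → Fin n → ℤ := fun j x y => ib (G.Adj x y ∧ f s(x, y) = j)
  have sy : ∀ j x y, s j x y = s j y x := fun j x y => by
    simp only [s, G.adj_comm x y, Sym2.eq_swap (a := x)]
  have cc : ∀ v x, (if v = x then 1 else 0) + s 1 v x + (s 2 v x + s 3 v x) =
      ib (x = v ∨ G.Adj v x) := by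
    intro v x
    by_cases hx : v = x
    · simp [hx, s, ib]
    · by_cases h : G.Adj v x
      · rcases hf' v x h with e | e | e <;> simp [hx, h, s, ib, e]
      · simp [hx, h, Ne.symm hx, s, ib]
  have d : ∀ v j, ∑ y, s j v y = dg G f v j := fun v j => by simp [dg_eq, s]
  have := core (s 1) (fun x y => s 2 x y + s 3 x y) a (b + c) (sy 1)
    (fun x y => by rw [sy 2, sy 3]) (fun x y => by simp only [s, ib]; split_ifs <;> simp) (fun x y => ?_)
    (fun x y => by rw [cc]; unfold ib; split_ifs <;> simp) (fun x => by rw [d, (h x).1])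
    (fun x => by rw [sum_add_distrib, d, d, (h x).2.1, (h x).2.2.1]) (by exact_mod_cast h0)
    (by simpa using hn) fun v => ?_
  · exact_mod_cast this
  · simp only [s, ib]
    split_ifs with h1 h2 <;> simp
    omega
  · simp only [cc]
    simp only [mul_add, sum_add_distrib, s]
    have e1 := ec_eq G f v 1
    have e2 := ec_eq G f v 2
    have e3 := ec_eq G f v 3
    have := (h v).2.2.2
    norm_cast
    omega

lemma family (k m : ℕ) (hk : 3 ≤ k) (hm : 1 ≤ m) : ∃ a b c, Flip a b c ∧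
    a + 1 = (2 * k + 1) * ((4 * k ^ 3 + 2 * k ^ 2) * m) ∧ 5 * k * a ^ 2 ≤ 4 * k * c + 4 * a ^ 2 := by
  obtain ⟨y, hy⟩ : ∃ y, y = 4 * k ^ 3 + 2 * k ^ 2 := ⟨_, rfl⟩
  obtain ⟨r, hr⟩ : ∃ r, r = 2 * k ^ 3 + 6 * k ^ 2 + 4 * k + 1 := ⟨_, rfl⟩
  obtain ⟨g, hg⟩ : ∃ g, g = 5 * k ^ 2 + 4 * k + 1 := ⟨_, rfl⟩
  have k3 : 3 * k ^ 2 ≤ k ^ 3 := by nlinarith [Nat.zero_le (k ^ 2)]
  have k2 : 3 * k ≤ k ^ 2 := by nlinarith
  obtain ⟨u, hu⟩ : ∃ u, u + 1 = y * m := ⟨y * m - 1, Nat.sub_add_cancel (by nlinarith)⟩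
  obtain ⟨σ, hσ⟩ : ∃ σ, σ + 1 = r * m := ⟨r * m - 1, Nat.sub_add_cancel (by nlinarith)⟩
  obtain ⟨p, hp⟩ : ∃ p, p + 1 = g * m := ⟨g * m - 1, Nat.sub_add_cancel (by nlinarith)⟩
  have p1 : 2 * k ^ 2 ≤ p := by nlinarith
  obtain ⟨w, hw⟩ : ∃ w, w + 1 = y * (u + 1) * p :=
    ⟨_, Nat.sub_add_cancel (Nat.mul_pos (Nat.mul_pos (by omega) (by omega)) (by omega))⟩
  have ry : r * m ≤ y * m := Nat.mul_le_mul_right _ (by omega)
  obtain ⟨τ, hτ⟩ : ∃ τ, u + 1 = σ + τ := ⟨u + 1 - σ, by omega⟩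
  have st : σ = τ + 2 * p := by
    have : 2 * (r * m) = y * m + 2 * (g * m) := by rw [hr, hy, hg]; ring
    omega
  obtain ⟨d, E, U, d1, d2, d3, E1, E2, E3⟩ := blow (Fintype.card_fin (k + 1)) u σ (by omega)
  rw [show u + 1 - σ = τ by omega] at d3 E3
  rw [← hy] at E2 E3 ⊢
  rw [← hr] at E1
  have F := lower (U.iter w) ?_ ?_ ?_ ?_ ?_
  · refine ⟨_, _, _, F, by simp [ib, d1, hu], ?_⟩
    simp only [ib, OfNat.one_ne_ofNat, if_false, if_true, mul_zero, add_zero, mul_one]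
    obtain ⟨j, rfl⟩ : ∃ j, k = j + 1 := ⟨k - 1, by omega⟩
    have a1 : d 1 ^ 2 ≤ ((2 * (j + 1) + 1) * (u + 1)) ^ 2 := Nat.pow_le_pow_left (by omega) 2
    have a2 : w + 1 + y * (u + 1) = g * (u + 1) ^ 2 := by
      rw [hw, ← mul_add_one, hp, sq]
      nth_rewrite 3 [hu]
      ring
    have a3 : y * (u + 1) ≤ (u + 1) ^ 2 := by
      rw [sq]
      exact Nat.mul_le_mul_right _ (hu ▸ Nat.le_mul_of_pos_right _ hm)
    have a4 : 1 ≤ (u + 1) ^ 2 := Nat.one_le_pow _ _ (by omega)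
    rw [mul_pow] at a1
    generalize (u + 1) ^ 2 = Q at a1 a2 a3 a4
    have a5 : g * Q ≤ w + 2 * Q := by omega
    have a6 := Nat.mul_le_mul_left (5 * j + 1) a1
    have a7 := Nat.mul_le_mul_left (4 * (j + 1)) a5
    rw [hg] at a7
    nlinarith [Nat.zero_le (j * Q), Nat.zero_le (j * j * Q), Nat.zero_le (j * d 3)]
  all_goals simp only [ib, OfNat.one_ne_ofNat, Nat.reduceEqDiff, if_false, if_true, mul_zero,
    add_zero, mul_one]
  · nlinarith
  · have a1 : (2 * k + 1) ^ 2 * m ≤ σ := by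
      have : ((2 * k + 1) ^ 2 + 1) * m ≤ r * m := Nat.mul_le_mul_right _ (by nlinarith)
      nlinarith
    have a2 := Nat.mul_le_mul_left (2 * k ^ 2) a1
    have a3 : (2 * k + 1) * (y * m) = 2 * k ^ 2 * ((2 * k + 1) ^ 2 * m) := by rw [hy]; ring
    rw [hu] at d1
    omega
  · have a1 : 2 * k ^ 2 * σ ≤ p * (u + 1) := Nat.mul_le_mul p1 (by omega)
    have a2 : 2 * (p * (u + 1)) ≤ y * (p * (u + 1)) := Nat.mul_le_mul_right _ (by omega)
    have a3 : 2 * 1 ≤ p * (u + 1) := Nat.mul_le_mul (by omega) (by omega)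
    have a4 : y * (u + 1) * p = y * (p * (u + 1)) := by ring
    omega
  · rw [E2, E3, st]
    nlinarith
  · have a1 : y * ((u + 1) * σ) + y * (u + 1) = r * (u + 1) ^ 2 := by
      rw [← mul_add, ← mul_add_one, hσ, sq]
      nth_rewrite 3 [hu]
      ring
    have a2 : (2 * k + 1 + 2 * k ^ 2) * (u + 1) < y * (u + 1) :=
      Nat.mul_lt_mul_of_pos_right (by omega) (by omega)
    omega

theorem result : IsLUB {c : ℝ | {t : ℕ × ℕ × ℕ | Flip t.1 t.2.1 t.2.2 ∧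
    c * (t.1 : ℝ) ^ 2 ≤ t.2.2}.Infinite} (5 / 4) := by
  refine ⟨fun c hc => le_of_not_gt fun h => hc ?_, fun B hB => ?_⟩
  · obtain ⟨N, hN⟩ := exists_nat_gt (2 / (c - 5 / 4))
    refine ((Set.finite_Iic N).prod ((Set.finite_Iic (2 * N + 2 * N ^ 2)).prod
      (Set.finite_Iic (2 * N + 2 * N ^ 2)))).subset ?_
    rintro ⟨a, b, d⟩ ⟨h1, h2⟩
    have u := upper h1
    have a0 : (0 : ℝ) < a := by exact_mod_cast h1.1
    have u' : 4 * ((b : ℝ) + d) ≤ 8 * a + 5 * a ^ 2 := by exact_mod_cast u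
    have aN : a ≤ N := by
      rw [div_lt_iff₀ (by linarith)] at hN
      by_contra hc
      have : (N : ℝ) ≤ a := by exact_mod_cast (not_le.1 hc).le
      have b0 : (0 : ℝ) ≤ b := Nat.cast_nonneg b
      simp only at h2
      nlinarith [mul_le_mul_of_nonneg_right this (sub_pos.2 h).le]
    have : a ^ 2 ≤ N ^ 2 := Nat.pow_le_pow_left aN 2
    simp only [Set.mem_prod, Set.mem_Iic] at u ⊢
    omega
  · refine le_of_forall_pos_le_add fun ε hε => ?_
    obtain ⟨k, hk⟩ := exists_nat_gt (max 3 (1 / ε))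
    rw [max_lt_iff] at hk
    have k3 : 3 ≤ k := by exact_mod_cast hk.1.le
    have k0 : (0 : ℝ) < k := by linarith [hk.1]
    rw [← sub_le_iff_le_add]
    choose a b c h1 h2 h3 using fun m => family k (m + 1) k3 (by omega)
    refine hB (Set.infinite_of_injective_forall_mem (f := fun m => (a m, b m, c m))
      (fun m m' h => ?_) fun m => ⟨h1 m, ?_⟩)
    · have e := h2 m
      rw [(Prod.mk.inj h).1, h2 m'] at e
      have := Nat.eq_of_mul_eq_mul_left (by positivity) (Nat.eq_of_mul_eq_mul_left (by omega) e)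
      omega
    · have h4 : 5 * (k : ℝ) * a m ^ 2 ≤ 4 * k * c m + 4 * a m ^ 2 := by exact_mod_cast h3 m
      have h5 := (div_lt_iff₀ hε).1 hk.2
      refine le_of_mul_le_mul_left ?_ k0
      nlinarith [mul_le_mul_of_nonneg_right h5.le (sq_nonneg (a m : ℝ))]

end Pool.Agent.Results.MP_56a9b7_co.Cstar
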